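import Pool.Agent.Helper73.Dil.LocG
import Pool.Agent.Helper53.Dil.Area

/-!
# GLUE: a local solution is a solution
-/

open Topology Set Filter MeasureTheory Metric

namespace Pool.Agent.Helper34.Dil

open Pool.Agent.Helper73.Dil Pool.Agent.Helper73.Dil.DilationSurface Pool.Agent.Helper53.Dil

universe u

/-- a holomorphic function with vanishing real part near a point has derivative zero there -/
theorem hasDerivAt_eq_zero_of_re {h : ℂ → ℂ} {h' ζ : ℂ} (hd : HasDerivAt h h' ζ)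
    (hre : ∀ᶠ z in 𝓝 ζ, (h z).re = 0) : h' = 0 := by
  have h1 : HasFDerivAt h ((ContinuousLinearMap.toSpanSingleton ℂ h').restrictScalars ℝ) ζ :=
    hd.hasFDerivAt.restrictScalars ℝ
  have h2 : HasFDerivAt (fun z => (h z).re)
      (Complex.reCLM.comp ((ContinuousLinearMap.toSpanSingleton ℂ h').restrictScalars ℝ)) ζ :=
    Complex.reCLM.hasFDerivAt.comp ζ h1
  have h3 : HasFDerivAt (fun z => (h z).re) (0 : ℂ →L[ℝ] ℝ) ζ :=
    (hasFDerivAt_const (0 : ℝ) ζ).congr_of_eventuallyEq hre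
  have h4 := h2.unique h3
  have h5 := congrArg (fun L : ℂ →L[ℝ] ℝ => L 1) h4
  have h6 := congrArg (fun L : ℂ →L[ℝ] ℝ => L Complex.I) h4
  simp at h5 h6
  exact Complex.ext h5 h6

theorem quasi_aff (a : ℝ) (ha : a ≠ 0) (β : ℂ) :
    Measure.QuasiMeasurePreserving (fun z : ℂ => (a : ℂ) * z + β) volume volume := by
  refine ⟨by fun_prop, ?_⟩
  refine Measure.AbsolutelyContinuous.mk fun s hs h0 => ?_
  rw [Measure.map_apply (by fun_prop) hs]
  have h1 : (fun z : ℂ => (a : ℂ) * z + β) ⁻¹' s = (a • ·) ⁻¹' ((· + β) ⁻¹' s) := by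
    ext z
    simp
  rw [h1, Measure.addHaar_preimage_smul _ ha, measure_preimage_add_right, h0, mul_zero]

section
variable {X : Type u} [TopologicalSpace X] [MeasurableSpace X] {D : DilationSurface X}

theorem local_sol (R : D.Ref) (S : D.Scale) {t : ℂ} (ht : t ∈ UH) (c : R.H) (f : X → ℝ)
    {b b' : OpenPartialHomeomorph X ℂ} (hb : D.IsBall b) (hb' : D.IsBall b')
    (hs : R.SolOn S t c f b') {z0 : ℂ} (hz0 : z0 ∈ B1) (hx : b.symm z0 ∈ b'.source) :
    ∃ r : ℝ, 0 < r ∧ ball z0 r ⊆ B1 ∧ ∃ W : ℂ → ℂ, DifferentiableOn ℂ W (tc t '' ball z0 r) ∧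
      (∀ᵐ z ∂(volume : Measure ℂ), z ∈ ball z0 r → R.loc b c z = deriv W (tc t z)) ∧
      ∀ z ∈ ball z0 r, S.u b (b.symm z) + f (b.symm z) = (W (tc t z)).re := by
  obtain ⟨w, hw1, hw2, hw3⟩ := hs
  set x0 := b.symm z0 with hx0
  have hxb : x0 ∈ b.source := ball_symm_mem hb hz0
  have hbx0 : b x0 = z0 := ball_right_inv hb hz0
  obtain ⟨r0, hr0⟩ := isChart_dil hb.1 hb'.1 hxb hx
  obtain ⟨ha, β, hev⟩ := rat_spec hr0
  set a := rat b b' x0 with hadef
  have hN : ∀ᶠ y in 𝓝 x0, (∀ᶠ y' in 𝓝 y, b' y' = a * b y' + β) ∧ y ∈ b'.source :=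
    hev.eventually_nhds.and (b'.open_source.mem_nhds hx)
  have hcont : Tendsto b.symm (𝓝 z0) (𝓝 x0) := by
    have := b.symm.continuousAt (x := z0) (by simpa [hb.2] using hz0)
    exact this.tendsto
  have hE : ∀ᶠ z in 𝓝 z0, ((∀ᶠ y' in 𝓝 (b.symm z), b' y' = a * b y' + β) ∧
      b.symm z ∈ b'.source) ∧ z ∈ B1 :=
    (hcont.eventually hN).and (isOpen_ball.mem_nhds hz0)
  obtain ⟨r, hr, hball⟩ := Metric.eventually_nhds_iff_ball.1 hE
  have hsub : ball z0 r ⊆ B1 := fun z hz => (hball z hz).2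
  have hev' : ∀ z ∈ ball z0 r, ∀ᶠ y' in 𝓝 (b.symm z), b' y' = a * b y' + β :=
    fun z hz => (hball z hz).1.1
  have hsrc : ∀ z ∈ ball z0 r, b.symm z ∈ b'.source := fun z hz => (hball z hz).1.2
  have hval : ∀ z ∈ ball z0 r, b' (b.symm z) = a * z + β := by
    intro z hz
    have := (hev' z hz).self_of_nhds
    rwa [ball_right_inv hb (hsub hz)] at this
  have hmem : ∀ z ∈ ball z0 r, (a : ℂ) * z + β ∈ B1 := by
    intro z hz
    rw [← hval z hz, ← hb'.2]
    exact b'.map_source (hsrc z hz)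
  have hinv : ∀ z ∈ ball z0 r, b'.symm ((a : ℂ) * z + β) = b.symm z := by
    intro z hz
    rw [← hval z hz, b'.left_inv (hsrc z hz)]
  have htc : ∀ z, (a : ℂ) * tc t z + tc t β = tc t ((a : ℂ) * z + β) := by
    intro z
    rw [tc_add, tc_smul]
  have hloc : ∀ z ∈ ball z0 r, R.loc b c z = a * R.loc b' c ((a : ℂ) * z + β) := by
    intro z hz
    unfold Ref.loc
    rw [hinv z hz]
    have hy1 : b.symm z ∈ b.source := ball_symm_mem hb (hsub hz)
    have hreg := ball_symm_reg hb (hsub hz)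
    have hch := ref_mem_ch R hreg
    obtain ⟨r1, hr1⟩ := isChart_dil hb'.1 (ref_ch_isBall R (b.symm z)).1 (hsrc z hz) hch
    obtain ⟨h1, β1, h2⟩ := rat_spec hr1
    obtain ⟨r2, hr2⟩ := isChart_dil hb.1 (ref_ch_isBall R (b.symm z)).1 hy1 hch
    have h3 : ∀ᶠ y in 𝓝 (b.symm z), (R.ch (b.symm z)) y =
        ((rat b' (R.ch (b.symm z)) (b.symm z) * a : ℝ) : ℂ) * b y +
          (rat b' (R.ch (b.symm z)) (b.symm z) * β + β1) := by
      filter_upwards [h2, hev' z hz] with y hy hy'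
      rw [hy, hy']
      push_cast
      ring
    rw [← rat_unique b hy1 hr2 h3]
    push_cast
    ring
  refine ⟨r, hr, hsub, fun ζ => w ((a : ℂ) * ζ + tc t β) - ((Real.log |a| : ℝ) : ℂ), ?_, ?_, ?_⟩
  · refine DifferentiableOn.sub_const ?_ _
    refine DifferentiableOn.comp (g := w) (t := tc t '' B1) hw1 (by fun_prop) ?_
    rintro _ ⟨z, hz, rfl⟩
    exact ⟨_, hmem z hz, (htc z).symm⟩
  · have h1 : ∀ᵐ z ∂(volume : Measure ℂ), z ∈ B1 → R.loc b' c z = deriv w (tc t z) := by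
      have := (ae_restrict_iff' (s := B1) (measurableSet_ball)).1 hw2
      exact this
    have h2 := (quasi_aff a ha β).ae h1
    filter_upwards [h2] with z hz hzr
    rw [hloc z hzr, hz (hmem z hzr)]
    have h3 : HasDerivAt w (deriv w (tc t (a * z + β))) ((a : ℂ) * tc t z + tc t β) := by
      rw [htc]
      have hn : tc t '' B1 ∈ 𝓝 (tc t ((a : ℂ) * z + β)) :=
        (om_open ht 0 1).mem_nhds ⟨_, hmem z hzr, rfl⟩
      exact (hw1.differentiableAt hn).hasDerivAt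
    have h4 : HasDerivAt (fun ζ : ℂ => (a : ℂ) * ζ + tc t β) a (tc t z) := by
      simpa using ((hasDerivAt_id (tc t z)).const_mul (a : ℂ)).add_const (tc t β)
    have h5 := (h3.comp (tc t z) h4).sub_const ((Real.log |a| : ℝ) : ℂ)
    have h6 : deriv (fun ζ => w ((a : ℂ) * ζ + tc t β) - ((Real.log |a| : ℝ) : ℂ)) (tc t z) =
        deriv w (tc t (a * z + β)) * a := h5.deriv
    rw [h6, mul_comm]
  · intro z hz
    have h1 := hw3 _ (hmem z hz)
    rw [hinv z hz] at h1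
    have h2 : S.u b' (b.symm z) = S.u b (b.symm z) + Real.log |a| :=
      S.trans b b' hb.1 hb'.1 _ (ball_symm_mem hb (hsub hz)) (hsrc z hz) |a|
        ⟨a, β, ha, rfl, hev' z hz⟩
    change S.u b (b.symm z) + f (b.symm z) =
      (w ((a : ℂ) * tc t z + tc t β) - ((Real.log |a| : ℝ) : ℂ)).re
    rw [htc, Complex.sub_re, Complex.ofReal_re, ← h1, h2]
    ring

end

theorem sb_GLUE : SB_GLUE.{u} := by
  intro X _ _ _ _ _ D R S t c f ht hloc b hb
  have key : ∀ z0 ∈ B1, ∃ r : ℝ, 0 < r ∧ ball z0 r ⊆ B1 ∧ ∃ W : ℂ → ℂ,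
      DifferentiableOn ℂ W (tc t '' ball z0 r) ∧
      (∀ᵐ z ∂(volume : Measure ℂ), z ∈ ball z0 r → R.loc b c z = deriv W (tc t z)) ∧
      ∀ z ∈ ball z0 r, S.u b (b.symm z) + f (b.symm z) = (W (tc t z)).re := by
    intro z0 hz0
    obtain ⟨b', hb', hx, hs⟩ := hloc _ (ball_symm_reg hb hz0)
    exact local_sol R S ht c f hb hb' hs hz0 hx
  choose! r hr hrB W hW1 hW2 hW3 using key
  -- derivatives agree
  have hit : ∀ z, itc t (tc t z) = z := fun z => tc_inj ht (tc_itc ht _)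
  have hself : ∀ z ∈ B1, z ∈ ball z (r z) := fun z hz => mem_ball_self (hr z hz)
  have hWd : ∀ z0 ∈ B1, ∀ z ∈ ball z0 (r z0), HasDerivAt (W z0) (deriv (W z0) (tc t z)) (tc t z) :=
    fun z0 hz0 z hz => ((hW1 z0 hz0).differentiableAt
      ((om_open ht z0 (r z0)).mem_nhds ⟨z, hz, rfl⟩)).hasDerivAt
  have hA : ∀ z0 ∈ B1, ∀ z ∈ ball z0 (r z0), deriv (W z) (tc t z) = deriv (W z0) (tc t z) := by
    intro z0 hz0 z hz
    have hzB : z ∈ B1 := hrB z0 hz0 hz
    have h1 := (hWd z hzB z (hself z hzB)).sub (hWd z0 hz0 z hz)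
    have h2 : ∀ᶠ ζ in 𝓝 (tc t z), (W z ζ - W z0 ζ).re = 0 := by
      have hn1 := (om_open ht z (r z)).mem_nhds ⟨z, hself z hzB, rfl⟩
      have hn2 := (om_open ht z0 (r z0)).mem_nhds ⟨z, hz, rfl⟩
      filter_upwards [hn1, hn2] with ζ h3 h4
      obtain ⟨z1, hz1, rfl⟩ := h3
      obtain ⟨z2, hz2, h5⟩ := h4
      have h6 : z2 = z1 := tc_inj ht h5
      subst h6
      rw [Complex.sub_re, ← hW3 z hzB _ hz1, ← hW3 z0 hz0 _ hz2, sub_self]
    exact sub_eq_zero.1 (hasDerivAt_eq_zero_of_re h1 h2)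
  set g : ℂ → ℂ := fun ζ => deriv (W (itc t ζ)) ζ with hg
  have hgt : ∀ z0 ∈ B1, ∀ z ∈ ball z0 (r z0), g (tc t z) = deriv (W z0) (tc t z) := by
    intro z0 hz0 z hz
    simp only [hg, hit]
    exact hA z0 hz0 z hz
  have hΩo : IsOpen (tc t '' B1) := om_open ht 0 1
  have hΩc : Convex ℝ (tc t '' B1) := om_convex t 0 1
  have hgd : DifferentiableOn ℂ g (tc t '' B1) := by
    rintro _ ⟨z0, hz0, rfl⟩
    have h1 : DifferentiableAt ℂ (deriv (W z0)) (tc t z0) :=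
      ((hW1 z0 hz0).deriv (om_open ht z0 (r z0))).differentiableAt
        ((om_open ht z0 (r z0)).mem_nhds ⟨z0, hself z0 hz0, rfl⟩)
    have h2 : g =ᶠ[𝓝 (tc t z0)] deriv (W z0) := by
      filter_upwards [(om_open ht z0 (r z0)).mem_nhds ⟨z0, hself z0 hz0, rfl⟩] with ζ hζ
      obtain ⟨z, hz, rfl⟩ := hζ
      exact hgt z0 hz0 z hz
    exact (h1.congr_of_eventuallyEq h2).differentiableWithinAt
  obtain ⟨w0, hw0⟩ := hΩc.exists_forall_hasDerivWithinAt hgd
  have hw0' : ∀ z ∈ B1, HasDerivAt w0 (g (tc t z)) (tc t z) := fun z hz =>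
    (hw0 _ ⟨z, hz, rfl⟩).hasDerivAt (hΩo.mem_nhds ⟨z, hz, rfl⟩)
  -- real parts
  set F : ℂ → ℝ := fun ζ => (w0 ζ).re - (S.u b (b.symm (itc t ζ)) + f (b.symm (itc t ζ))) with hF
  have hFd : ∀ z ∈ B1, HasFDerivAt F (0 : ℂ →L[ℝ] ℝ) (tc t z) := by
    intro z hz
    have h1 := (hw0' z hz).sub (hWd z hz z (hself z hz))
    rw [hgt z hz z (hself z hz), sub_self] at h1
    have h2 : HasFDerivAt (w0 - W z) (0 : ℂ →L[ℝ] ℂ) (tc t z) := by
      have h3 := h1.hasFDerivAt.restrictScalars ℝ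
      have h4 : ((ContinuousLinearMap.toSpanSingleton ℂ (0 : ℂ)).restrictScalars ℝ) =
          (0 : ℂ →L[ℝ] ℂ) := by
        ext <;> simp
      rwa [h4] at h3
    have h5 : HasFDerivAt (fun ζ => ((w0 - W z) ζ).re) (Complex.reCLM.comp (0 : ℂ →L[ℝ] ℂ))
        (tc t z) := Complex.reCLM.hasFDerivAt.comp _ h2
    rw [ContinuousLinearMap.comp_zero] at h5
    refine h5.congr_of_eventuallyEq ?_
    filter_upwards [(om_open ht z (r z)).mem_nhds ⟨z, hself z hz, rfl⟩] with ζ hζ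
    obtain ⟨z', hz', rfl⟩ := hζ
    simp only [hF, hit, Pi.sub_apply, Complex.sub_re]
    rw [hW3 z hz z' hz']
  have hconst : ∀ z ∈ B1, F (tc t z) = F (tc t 0) := by
    intro z hz
    refine hΩo.is_const_of_fderiv_eq_zero (𝕜 := ℝ) hΩc.isPreconnected ?_ ?_ ⟨z, hz, rfl⟩
      ⟨0, by simp [B1], rfl⟩
    · rintro _ ⟨z', hz', rfl⟩
      exact (hFd z' hz').differentiableAt.differentiableWithinAt
    · rintro _ ⟨z', hz', rfl⟩
      exact (hFd z' hz').fderiv
  refine ⟨fun ζ => w0 ζ - ((F (tc t 0) : ℝ) : ℂ), ?_, ?_, ?_⟩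
  · rintro _ ⟨z, hz, rfl⟩
    exact ((hw0' z hz).sub_const _).differentiableAt.differentiableWithinAt
  · refine (ae_restrict_iff' (s := B1) (measurableSet_ball)).2 ?_
    have hder : ∀ z ∈ B1, deriv (fun ζ => w0 ζ - ((F (tc t 0) : ℝ) : ℂ)) (tc t z) =
        g (tc t z) := fun z hz => ((hw0' z hz).sub_const _).deriv
    rw [ae_iff]
    refine measure_null_of_locally_null _ fun z0 hz0 => ?_
    have hz0B : z0 ∈ B1 := by
      by_contra hc
      exact hz0 fun h => (hc h).elim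
    refine ⟨ball z0 (r z0) ∩ {z | ¬ (z ∈ ball z0 (r z0) →
      R.loc b c z = deriv (W z0) (tc t z))}, ?_, ?_⟩
    · rw [mem_nhdsWithin]
      refine ⟨ball z0 (r z0), isOpen_ball, hself z0 hz0B, ?_⟩
      rintro z ⟨hz, hz'⟩
      refine ⟨hz, fun h => hz' fun hzB => ?_⟩
      exact (h hz).trans ((hgt z0 hz0B z hz).symm.trans (hder z hzB).symm)
    · exact measure_mono_null inter_subset_right (ae_iff.1 (hW2 z0 hz0B))
  · intro z hz
    have h1 := hconst z hz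
    simp only [hF] at h1
    rw [hit] at h1
    rw [Complex.sub_re, Complex.ofReal_re]
    simp only [hF]
    rw [← h1]
    ring

end Pool.Agent.Helper34.Dil
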